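import Pool.Agent.helper8.T7.SpecSM

/-! Row t7:SMP (MP_16912e_nt): one dyadic block of regular prime conductors. -/

set_option autoImplicit false

namespace Pool.Agent.T7

open Finset NumberField Pool.Agent.helper3.FT Pool.Agent.helper47.RA Pool.Agent.T5 Pool.Agent.T6 Pool.Agent.T6L
open Pool.Agent.helper26.T5 (nn LEMB LPR LAW LP LPA HLN HPR HSQ HID HCL HGA)

/-- the bound for the tuples with `q ∣ RR t` -/
noncomputable def SMP_M (C S r : ℝ) (q : ℕ) : ℝ :=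
  C * S * (1 / q + r ^ (3 / 2 : ℝ) * (q : ℝ) ^ (3 / 4 : ℝ) * (1 + q * r))

lemma SMP_M_nonneg (C S r : ℝ) (hC : 0 ≤ C) (hS : 0 ≤ S) (hr : 0 ≤ r) (q : ℕ) : 0 ≤ SMP_M C S r q := by
  unfold SMP_M
  have h1 : (0 : ℝ) ≤ (q : ℝ) := Nat.cast_nonneg q
  positivity

lemma SMP_M_le (C S r P : ℝ) (hC : 0 ≤ C) (hS : 0 ≤ S) (hr : 0 ≤ r) (hP : 1 ≤ P) (q : ℕ)
    (h1 : P < q) (h2 : (q : ℝ) ≤ 2 * P) :
    SMP_M C S r q ≤ C * S * (1 / P + 2 * r ^ (3 / 2 : ℝ) * P ^ (3 / 4 : ℝ) * (2 * (1 + P * r))) := by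
  unfold SMP_M
  have hP0 : 0 < P := by linarith
  have hq0 : (0 : ℝ) < q := by linarith
  refine mul_le_mul_of_nonneg_left ?_ (mul_nonneg hC hS)
  refine add_le_add (one_div_le_one_div_of_le hP0 h1.le) ?_
  have e1 : (q : ℝ) ^ (3 / 4 : ℝ) ≤ 2 * P ^ (3 / 4 : ℝ) := by
    calc (q : ℝ) ^ (3 / 4 : ℝ) ≤ (2 * P) ^ (3 / 4 : ℝ) :=
          Real.rpow_le_rpow hq0.le h2 (by norm_num)
      _ = (2 : ℝ) ^ (3 / 4 : ℝ) * P ^ (3 / 4 : ℝ) := Real.mul_rpow (by norm_num) hP0.le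
      _ ≤ 2 * P ^ (3 / 4 : ℝ) := by
          refine mul_le_mul_of_nonneg_right ?_ (by positivity)
          calc (2 : ℝ) ^ (3 / 4 : ℝ) ≤ (2 : ℝ) ^ (1 : ℝ) :=
                Real.rpow_le_rpow_of_exponent_le (by norm_num) (by norm_num)
            _ = 2 := Real.rpow_one 2
  have e2 : 1 + (q : ℝ) * r ≤ 2 * (1 + P * r) := by
    have := mul_le_mul_of_nonneg_right h2 hr
    nlinarith
  have e3 : (0 : ℝ) ≤ r ^ (3 / 2 : ℝ) := Real.rpow_nonneg hr _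
  calc r ^ (3 / 2 : ℝ) * (q : ℝ) ^ (3 / 4 : ℝ) * (1 + q * r)
      ≤ r ^ (3 / 2 : ℝ) * (2 * P ^ (3 / 4 : ℝ)) * (2 * (1 + P * r)) := by
        refine mul_le_mul (mul_le_mul_of_nonneg_left e1 e3) e2 (by positivity) (by positivity)
    _ = 2 * r ^ (3 / 2 : ℝ) * P ^ (3 / 4 : ℝ) * (2 * (1 + P * r)) := by ring

lemma SMP_card (P : ℝ) (hP : 1 ≤ P) (s : Finset ℕ) (hs : ∀ q ∈ s, P < (q : ℝ) ∧ (q : ℝ) ≤ 2 * P) :
    (s.card : ℝ) ≤ 2 * P := by
  have hsub : s ⊆ Finset.Ioc ⌊P⌋₊ ⌊2 * P⌋₊ := by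
    intro q hq
    rw [Finset.mem_Ioc]
    exact ⟨(Nat.floor_lt (by linarith)).mpr (hs q hq).1, Nat.le_floor (hs q hq).2⟩
  have h1 : s.card ≤ ⌊2 * P⌋₊ - ⌊P⌋₊ := by
    have := Finset.card_le_card hsub
    rwa [Nat.card_Ioc] at this
  have h2 : ⌊P⌋₊ ≤ ⌊2 * P⌋₊ := Nat.floor_mono (by linarith)
  have h3 : (s.card : ℝ) ≤ (⌊2 * P⌋₊ : ℝ) - (⌊P⌋₊ : ℝ) := by
    have : (s.card : ℝ) ≤ ((⌊2 * P⌋₊ - ⌊P⌋₊ : ℕ) : ℝ) := by exact_mod_cast h1
    rwa [Nat.cast_sub h2] at this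
  have h4 : (⌊2 * P⌋₊ : ℝ) ≤ 2 * P := Nat.floor_le (by linarith)
  have h5 : P < (⌊P⌋₊ : ℝ) + 1 := Nat.lt_floor_add_one P
  linarith

lemma SMP_sum (C S r P : ℝ) (hC : 0 ≤ C) (hS : 0 ≤ S) (hr : 0 ≤ r) (hP : 1 ≤ P) (s : Finset ℕ)
    (hs : ∀ q ∈ s, P < (q : ℝ) ∧ (q : ℝ) ≤ 2 * P) :
    ∑ q ∈ s, SMP_M C S r q ≤ 8 * C * (S * (1 + r ^ (3 / 2 : ℝ) * P ^ (7 / 4 : ℝ) * (1 + P * r))) := by
  have hP0 : 0 < P := by linarith
  have h1 : ∑ q ∈ s, SMP_M C S r q ≤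
      s.card • (C * S * (1 / P + 2 * r ^ (3 / 2 : ℝ) * P ^ (3 / 4 : ℝ) * (2 * (1 + P * r)))) :=
    Finset.sum_le_card_nsmul _ _ _ fun q hq => SMP_M_le C S r P hC hS hr hP q (hs q hq).1 (hs q hq).2
  have h2 := SMP_card P hP s hs
  have hpos : 0 ≤ C * S * (1 / P + 2 * r ^ (3 / 2 : ℝ) * P ^ (3 / 4 : ℝ) * (2 * (1 + P * r))) := by
    positivity
  rw [nsmul_eq_mul] at h1
  refine h1.trans ((mul_le_mul_of_nonneg_right h2 hpos).trans ?_)
  have e1 : P * P ^ (3 / 4 : ℝ) = P ^ (7 / 4 : ℝ) := by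
    have := Real.rpow_add hP0 1 (3 / 4)
    rw [Real.rpow_one] at this
    rw [← this]
    norm_num
  have e2 : 2 * P * (C * S * (1 / P + 2 * r ^ (3 / 2 : ℝ) * P ^ (3 / 4 : ℝ) * (2 * (1 + P * r)))) =
      C * S * (2 * (P * (1 / P)) + 8 * (r ^ (3 / 2 : ℝ) * (P * P ^ (3 / 4 : ℝ)) * (1 + P * r))) := by
    ring
  rw [e2, e1, mul_one_div_cancel hP0.ne']
  have hCS : 0 ≤ C * S := mul_nonneg hC hS
  nlinarith

open Classical in
theorem SMP (hRUB : RUB_stmt) (hSMC : SMC_stmt) (hSMR : SMR_stmt) (hSMF : SMF_stmt) (hSFA : SFA_stmt) : SMP_stmt := by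
  obtain ⟨η, hη0, hη1, hRUB⟩ := hRUB
  refine ⟨η, hη0, hη1, fun κ R hκ hκ1 hR => ?_⟩
  obtain ⟨C₀, N₀, hC₀, hRUB⟩ := hRUB κ hκ hκ1
  have hsq8 : 0 ≤ √(8 * C₀) := Real.sqrt_nonneg _
  refine ⟨280 * R * √(8 * C₀) + 280 * R, max N₀ 1, ?_, ?_⟩
  · have : 0 ≤ 280 * R * √(8 * C₀) := by positivity
    linarith
  intro N Y P A hN hRg hP1 hP2 hA hL F hF
  have hN0 : N₀ ≤ N := (le_max_left _ _).trans hN
  have hN1 : 1 ≤ N := (le_max_right _ _).trans hN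
  have hNp : 0 < N := by linarith
  have hsN : 0 < √N := Real.sqrt_pos.mpr hNp
  have hX : 0 < R * √N := mul_pos (by linarith) hsN
  have hS : 0 < Y * (R * √N) := lt_of_lt_of_le (Real.rpow_pos_of_pos hNp _) hRg.r4
  have hr : 0 ≤ Y * (R * √N) / N := (div_pos hS hNp).le
  have hex : ∀ t : Tpl, ∃ p : ℕ, ∃ D : ℤ, t ∈ F → SB N Y (R * √N) P t p D := by
    intro t
    by_cases ht : t ∈ F
    · obtain ⟨p, D, h⟩ := (hF t ht).2
      exact ⟨p, D, fun _ => h⟩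
    · exact ⟨0, 0, fun h => absurd h ht⟩
  choose c D hSB using hex
  have hmain := hSMC (ℤ × ℤ × ℤ) F (fun t => (D t, lb (c t) t)) c A (280 * R)
    (SMP_M C₀ (Y * (R * √N)) (Y * (R * √N) / N)) hA (by linarith)
    (fun q => SMP_M_nonneg _ _ _ (by linarith) hS.le hr q) ?_ ?_ ?_
  · have hsum := SMP_sum C₀ (Y * (R * √N)) (Y * (R * √N) / N) P (by linarith) hS.le hr hP1 (F.image c) (by
      intro q hq
      obtain ⟨t, ht, rfl⟩ := Finset.mem_image.mp hq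
      exact ⟨(hSB t ht).p1, (hSB t ht).p2⟩)
    have h1 : √(A * ∑ q ∈ F.image c, SMP_M C₀ (Y * (R * √N)) (Y * (R * √N) / N) q) ≤
        √(8 * C₀) * √(A * ((Y * (R * √N)) *
          (1 + (Y * (R * √N) / N) ^ (3 / 2 : ℝ) * P ^ (7 / 4 : ℝ) * (1 + P * (Y * (R * √N) / N))))) := by
      rw [← Real.sqrt_mul (by linarith)]
      refine Real.sqrt_le_sqrt ?_
      have := mul_le_mul_of_nonneg_left hsum hA
      refine this.trans (le_of_eq ?_)
      ring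
    refine hmain.trans ?_
    have h2 : 0 ≤ √(A * ((Y * (R * √N)) *
          (1 + (Y * (R * √N) / N) ^ (3 / 2 : ℝ) * P ^ (7 / 4 : ℝ) * (1 + P * (Y * (R * √N) / N))))) :=
      Real.sqrt_nonneg _
    have hR0 : 0 ≤ 280 * R := by linarith
    calc 280 * R * (A + √(A * ∑ q ∈ F.image c, SMP_M C₀ (Y * (R * √N)) (Y * (R * √N) / N) q))
        ≤ 280 * R * (A + √(8 * C₀) * √(A * ((Y * (R * √N)) *
          (1 + (Y * (R * √N) / N) ^ (3 / 2 : ℝ) * P ^ (7 / 4 : ℝ) * (1 + P * (Y * (R * √N) / N)))))) :=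
          mul_le_mul_of_nonneg_left (add_le_add le_rfl h1) hR0
      _ ≤ _ := by
          have e1 : 0 ≤ 280 * R * √(8 * C₀) * A := by positivity
          have e2 : 0 ≤ 280 * R * √(A * ((Y * (R * √N)) *
            (1 + (Y * (R * √N) / N) ^ (3 / 2 : ℝ) * P ^ (7 / 4 : ℝ) * (1 + P * (Y * (R * √N) / N))))) := by
            positivity
          nlinarith
  · refine hL _ ?_
    intro x hx
    obtain ⟨t, ht, rfl⟩ := Finset.mem_image.mp hx
    exact ⟨t, c t, hSB t ht, rfl⟩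
  · intro i q U hU
    rcases U.eq_empty_or_nonempty with rfl | ⟨t0, ht0⟩
    · rw [Finset.card_empty, Nat.cast_zero]
      linarith
    obtain ⟨h1, h2, h3⟩ := hU t0 ht0
    have hb := hSB t0 h1
    have hD : D t0 = i.1 := congrArg Prod.fst h2
    rw [h3, hD] at hb
    have hq0 : (0 : ℝ) < (q : ℝ) := by exact_mod_cast hb.pr.pos
    have hneg : (i.1 : ℝ) * (q : ℝ) ^ 2 < 0 := by
      have h4 := hb.d1
      rw [hb.ds] at h4
      push_cast at h4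
      linarith
    have hDneg : (i.1 : ℝ) < 0 := by
      by_contra hc
      push Not at hc
      exact absurd hneg (not_lt.mpr (by positivity))
    have hDneg' : i.1 < 0 := by exact_mod_cast hDneg
    obtain ⟨E⟩ := hSFA.2.2 i.1 hb.fd hDneg'
    have hED : E.Q.D = i.1 := E.hD
    have h5 := hSMF E.K E.Q q i.2 (R * √N) (by rw [hED]; exact hDneg') hb.pr hb.p5 hX U (by
      intro t ht
      obtain ⟨g1, g2, g3⟩ := hU t ht
      have gb := hSB t g1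
      have gD : D t = i.1 := congrArg Prod.fst g2
      have gl : lb (c t) t = i.2 := congrArg Prod.snd g2
      rw [g3] at gl
      rw [g3, gD] at gb
      refine ⟨gb.tt, ?_, gb.l1, gb.l2, ?_, gl⟩
      · have hC := (hF t g1).1
        have hz := hC.z1
        have hY : 0 < Y := by
          by_contra hc
          push Not at hc
          exact absurd hS (not_lt.mpr (mul_nonpos_of_nonpos_of_nonneg hc hX.le))
        have : (0 : ℝ) < (t.2.2.2 : ℝ) := by linarith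
        exact_mod_cast this
      · rw [hED]
        exact gb.ds)
    refine h5.trans ?_
    have h6 : (q : ℝ) * √|(E.Q.D : ℝ)| = √(-(dis t0 : ℝ)) := by
      rw [hED, hb.ds, abs_of_neg hDneg]
      push_cast
      rw [show -((i.1 : ℝ) * (q : ℝ) ^ 2) = (q : ℝ) ^ 2 * (-(i.1 : ℝ)) by ring,
        Real.sqrt_mul (by positivity), Real.sqrt_sq hq0.le]
    rw [h6]
    have h7 : √(N / 2) ≤ √(-(dis t0 : ℝ)) := Real.sqrt_le_sqrt hb.d1.le
    have h8 : 0 < √(N / 2) := Real.sqrt_pos.mpr (by linarith)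
    have h9 : √N = √2 * √(N / 2) := by
      rw [← Real.sqrt_mul (by norm_num)]
      congr 1
      ring
    have h10 : 2 * Real.pi * (R * √N) / √(-(dis t0 : ℝ)) ≤ 9 * R := by
      rw [div_le_iff₀ (lt_of_lt_of_le h8 h7)]
      have hs2 : √2 ≤ 1.415 := by
        rw [Real.sqrt_le_left (by norm_num)]
        norm_num
      have hpi : Real.pi ≤ 3.15 := Real.pi_lt_d2.le
      have hpi0 : 0 < Real.pi := Real.pi_pos
      have hps : Real.pi * √2 ≤ 3.15 * 1.415 := mul_le_mul hpi hs2 (Real.sqrt_nonneg 2) (by norm_num)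
      calc 2 * Real.pi * (R * √N) = 2 * (Real.pi * √2) * (R * √(N / 2)) := by
            rw [h9]
            ring
        _ ≤ 9 * (R * √(N / 2)) := by
            refine mul_le_mul_of_nonneg_right ?_ (by positivity)
            linarith
        _ = 9 * R * √(N / 2) := by ring
        _ ≤ 9 * R * √(-(dis t0 : ℝ)) := mul_le_mul_of_nonneg_left h7 (by linarith)
    linarith
  · intro q hq U hU
    obtain ⟨t1, ht1, hq1⟩ := Finset.mem_image.mp hq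
    have hb1 := hSB t1 ht1
    rw [hq1] at hb1
    have hqη : (q : ℝ) ≤ N ^ η := hb1.p2.trans hP2
    have h5 := hRUB N Y (R * √N) hN0 hRg q hb1.pr hqη U (by
      intro t ht
      obtain ⟨g1, g2, t', g3, g4, g5⟩ := hU t ht
      have hlb : lb (c t') t' = lb (c t) t := congrArg Prod.snd g4
      rw [g5] at hlb
      have hZ : t'.2.2.2 = t.2.2.2 := congrArg Prod.fst hlb
      have hR' : |(q : ℤ) * RR t'| = |((c t : ℕ) : ℤ) * RR t| := congrArg Prod.snd hlb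
      have hb' := hSB t' g3
      rw [g5] at hb'
      have hbt := hSB t g1
      have hqd : (q : ℤ) ∣ ((c t : ℕ) : ℤ) * RR t := by
        rw [← dvd_abs, ← hR', dvd_abs]
        exact Dvd.intro _ rfl
      have hqp : Prime (q : ℤ) := Nat.prime_iff_prime_int.mp hb1.pr
      have hnd : ¬ (q : ℤ) ∣ ((c t : ℕ) : ℤ) := by
        intro hd
        rw [Int.natCast_dvd_natCast, Nat.prime_dvd_prime_iff_eq hb1.pr hbt.pr] at hd
        exact g2 hd.symm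
      have hqR : (q : ℤ) ∣ RR t := (hqp.dvd_or_dvd hqd).resolve_left hnd
      have hqZ : ¬ (q : ℤ) ∣ t.2.2.2 := by
        intro hd
        rw [← hZ] at hd
        exact hb'.rg (Dvd.dvd.mul_right hd _)
      exact ⟨(hF t g1).1, hqR, hSMR t q hbt.tt hb1.pr hqR hqZ⟩)
    exact h5

end Pool.Agent.T7
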